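import Mathlib
import Pool.Agent.TH681.QC.Rate
import Pool.Agent.W245.PB.CLog
import Pool.Agent.W245.PB.PLog
import Pool.Agent.W245.Small

/-!
# Singular matrices of logarithms, complex and `p`-adic: a quantitative extension theorem

Let `V` be a rational space of complex numbers of dimension at most `m` such that the assertion Q1
of `MP_1f047c_nt` holds for all matrices (of all sizes) with entries in `V`; this is the case for
`V = 0` and for every space of logarithms of algebraic numbers of dimension at most two.  Then for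
all but `C x ^ k (log log x) ^ C / log x` of the `k`-tuples `(a_1, ..., a_k)` of integers between
`1` and `x` the space `V + ℚ log a_1 + ... + ℚ log a_k` has dimension `dim V + k`, and the assertion
Q1 holds for all matrices of all sizes with entries in it.  The constant `C` depends only on
`m` and `k`.  The same holds for the Iwasawa logarithm and the assertion Q2, uniformly in the
prime `p`.
-/

namespace Pool.Agent.Results.MP_1f047c_nt.ExtensionsRate

open Module

/-- Every singular square matrix, of any size, with entries in `V` satisfies the conclusion of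
Q1. -/
def Q1Holds (V : Submodule ℚ ℂ) : Prop :=
  ∀ n : ℕ, 1 ≤ n → ∀ M : Matrix (Fin n) (Fin n) ℂ, (∀ i j, M i j ∈ V) → M.det = 0 →
    ∃ w v : Fin n → ℚ, w ≠ 0 ∧ v ≠ 0 ∧ ∑ i, ∑ j, (w i : ℂ) * M i j * (v j : ℂ) = 0

/-- `V` consists of logarithms of (nonzero) algebraic numbers. -/
def IsLogSpace (V : Submodule ℚ ℂ) : Prop := ∀ x ∈ V, IsAlgebraic ℚ (Complex.exp x)

/-- `L` is the Iwasawa `p`-adic logarithm on the algebraic closure of `ℚ_p`. -/
def IsIwasawaLog (p : ℕ) [Fact p.Prime] (L : PadicAlgCl p → PadicAlgCl p) : Prop :=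
  (∀ x y : PadicAlgCl p, x ≠ 0 → y ≠ 0 → L (x * y) = L x + L y) ∧
  L ((p : ℕ) : PadicAlgCl p) = 0 ∧
  ∀ z : PadicAlgCl p, ‖z‖ < 1 →
    HasSum (fun n : ℕ => (-1 : PadicAlgCl p) ^ n * z ^ (n + 1) / ((n : PadicAlgCl p) + 1))
      (L (1 + z))

/-- Every singular square matrix, of any size, with entries in `V` satisfies the conclusion of
Q2. -/
def Q2Holds {p : ℕ} [Fact p.Prime] (V : Submodule ℚ (PadicAlgCl p)) : Prop :=
  ∀ n : ℕ, 1 ≤ n → ∀ M : Matrix (Fin n) (Fin n) (PadicAlgCl p), (∀ i j, M i j ∈ V) → M.det = 0 →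
    ∃ w v : Fin n → ℚ, w ≠ 0 ∧ v ≠ 0 ∧
      ∑ i, ∑ j, (w i : PadicAlgCl p) * M i j * (v j : PadicAlgCl p) = 0

/-- `V` consists of `p`-adic logarithms of nonzero algebraic numbers. -/
def IsPadicLogSpace {p : ℕ} [Fact p.Prime] (L : PadicAlgCl p → PadicAlgCl p)
    (V : Submodule ℚ (PadicAlgCl p)) : Prop :=
  ∀ x ∈ V, ∃ α : PadicAlgCl p, α ≠ 0 ∧ IsAlgebraic ℚ α ∧ x = L α

theorem small_of_logs {p : ℕ} [Fact p.Prime] {L : PadicAlgCl p → PadicAlgCl p}
    (hL : Pool.Agent.W245.PB.IsIwasawaLog p L) (V : Submodule ℚ (PadicAlgCl p))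
    [Module.Finite ℚ V] (hV : IsPadicLogSpace L V) (h2 : finrank ℚ V ≤ 2) :
    Pool.Agent.W245.SingularHasZero V := by
  apply Pool.Agent.W245.PB.gen_small V _ h2
  intro x hx y hy hli halg
  have h1 := hL.indep_of_indep ![x, y] (by
    intro i
    fin_cases i
    · exact hV x hx
    · exact hV y hy) hli
  have hy0 : y ≠ 0 := by
    have := hli.ne_zero 1
    simpa using this
  rw [LinearIndependent.pair_iff] at h1
  have h3 := h1 (-1) ⟨x / y, mem_algebraicClosure_iff.2 halg⟩ (by
    rw [Algebra.smul_def, Algebra.smul_def]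
    change algebraMap _ (PadicAlgCl p) (-1) * x + (x / y) * y = 0
    rw [map_neg, map_one]
    field_simp
    ring)
  exact absurd h3.1 (by simp)

open Classical in
/-- **Main result.** -/
theorem result (m k : ℕ) :
    ∃ C : ℕ, ∀ x : ℕ, 16 ≤ x →
      (∀ V : Submodule ℚ ℂ, Module.Finite ℚ V → finrank ℚ V ≤ m →
        (Q1Holds V ∨ (finrank ℚ V ≤ 2 ∧ IsLogSpace V)) →
        (((Fintype.piFinset fun _ : Fin k => Finset.Icc 1 x).filter fun a =>
          ¬ (Q1Holds (V ⊔ Submodule.span ℚ (Set.range fun i => (Real.log (a i) : ℂ))) ∧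
            finrank ℚ (V ⊔ Submodule.span ℚ (Set.range fun i => (Real.log (a i) : ℂ)) :
              Submodule ℚ ℂ) = finrank ℚ V + k)).card : ℝ) ≤
          C * Real.log (Real.log x) ^ C / Real.log x * (x : ℝ) ^ k) ∧
      ∀ (p : ℕ) [Fact p.Prime] (L : PadicAlgCl p → PadicAlgCl p), IsIwasawaLog p L →
        ∀ V : Submodule ℚ (PadicAlgCl p), Module.Finite ℚ V → finrank ℚ V ≤ m →
        (Q2Holds V ∨ (finrank ℚ V ≤ 2 ∧ IsPadicLogSpace L V)) →
        (((Fintype.piFinset fun _ : Fin k => Finset.Icc 1 x).filter fun a =>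
          ¬ (Q2Holds (V ⊔ Submodule.span ℚ (Set.range fun i => L (a i : PadicAlgCl p))) ∧
            finrank ℚ (V ⊔ Submodule.span ℚ (Set.range fun i => L (a i : PadicAlgCl p)) :
              Submodule ℚ (PadicAlgCl p)) = finrank ℚ V + k)).card : ℝ) ≤
          C * Real.log (Real.log x) ^ C / Real.log x * (x : ℝ) ^ k := by
  obtain ⟨C, hC⟩ := Pool.Agent.TH681.QC.rate_goodZ k m
  refine ⟨C, fun x hx => ⟨fun V hVf hVm hV => ?_, fun p _ L hL V hVf hVm hV => ?_⟩⟩
  · have hV' : Pool.Agent.W245.SingularHasZero V := by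
      rcases hV with h | ⟨h2, h3⟩
      · exact h
      · exact Pool.Agent.W245.singularHasZero_small V h3 h2
    apply hC x hx (algebraicClosure ℚ ℂ) ℂ (fun n : ℕ => (Real.log n : ℂ))
      Pool.Agent.W245.PB.logLike_complex V hVf hVm hV'
    · intro a ha
      exact (Finset.mem_filter.1 ha).1
    · intro a ha hgood
      apply (Finset.mem_filter.1 ha).2
      exact ⟨hgood.1, hgood.2⟩
  · have hL' : Pool.Agent.W245.PB.IsIwasawaLog p L := ⟨hL.1, hL.2.1, hL.2.2⟩
    have hV' : Pool.Agent.W245.SingularHasZero V := by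
      rcases hV with h | ⟨h2, h3⟩
      · exact h
      · exact small_of_logs hL' V h3 h2
    apply hC x hx (Pool.Agent.W245.PB.QbarP p) (PadicAlgCl p) (fun n : ℕ => L (n : PadicAlgCl p))
      hL'.logLike V hVf hVm hV'
    · intro a ha
      exact (Finset.mem_filter.1 ha).1
    · intro a ha hgood
      apply (Finset.mem_filter.1 ha).2
      exact ⟨hgood.1, hgood.2⟩

end Pool.Agent.Results.MP_1f047c_nt.ExtensionsRate
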